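import Pool.Agent.J6H82.CIQ.Transfer2

/-!
# Fujita's very ampleness conjecture for étale quotients of complete intersections by diagonal
groups: finite coordinate sections

`Y ⊂ P^(n+c)` is a complete intersection of `c` hypersurfaces of degrees `d j`, of dimension `n`, and
a finite group `G` acts on `ℂ^(n+c+1)` by diagonal matrices, preserving the ideal of the equations;
the group `G/S`, `S` the subgroup of the elements acting by scalars, acts freely on `Y`. The line
bundles on `X = Y/G` whose pullback to `Y` is `O(k)` are given by the characters of `G` which are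
`c ^ k` on the elements acting by the scalar `c`. Let `A_1, …, A_m` be such line bundles, with pullbacks
`O(k_1), …, O(k_m)`, all `k_i ≥ 1` (ample line bundles). The sections of `K_X + A_1 + … + A_m` are the
forms of degree `e = ∑ d j - (n + c + 1) + ∑ k_i` on the cone over `Y` on which `G` acts by a certain
character `χ`, which is `c ^ e` on the elements acting by the scalar `c`.

For a set `J` of coordinates let `P(J)` be the coordinate subspace where the other coordinates are
zero.

Theorem. Let `m ≥ n + 2`. Let `Y` meet every `P(J)` with `4 ≤ |J| ≤ c + 1` in finitely many points. Then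
`K_X + A_1 + … + A_m` is very ample: there are no base points, points and tangent vectors are separated.

More generally it suffices that for every minimal `J` with infinite `Y ∩ P(J)` and `4 ≤ |J| ≤ c + 1`
there are `|J| - 2` forms `h_i` of degrees `b_i`, `∑ (b_i - 1) ≤ ∑ (d j - 1)`, whose ideal on `P(J)` is stable
under `G`, and whose common zeros on `P(J)` are points of `Y` (for example `|J| - 2` of the `f_j` if they
generate the ideal of all `f_j` on `P(J)`). There is no condition on the degrees, on the order of `G`, or
on the numbers `k_i ≥ 1`. The sets `J` with `|J| ≤ c + 1` are those for which `Y ∩ P(J)` is finite if it has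
the expected dimension; nothing is assumed if `c ≤ 2`.

The proof. Let `M` be the group of characters of `G/S` (the weights), and `ρ = ∑ (d j - 1)`, so that
`e ≥ ρ + 1`. If some point of `Y` has at most two nonzero coordinates then `|G/S| ≤ ρ + 1 ≤ e`, and the
starting library (`TH144.MB`) has the separation of points and tangent vectors. So let all points
of `Y` have at least three nonzero coordinates. Then `Y ∩ P(J)` is finite for `|J| ≤ 3`, since it does not
meet the coordinate hyperplanes of `P(J)` (`CIQ.finite_small`).

Let `y` and `y'` be points of `Y`. One may assume that they have the same set `J` of nonzero coordinates.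

(A) Let `Y ∩ P(J)` be finite, and let `l` be a linear form which does not vanish at its points. By
Macaulay's bound every form of degree `s ≥ e` is `l ^ (s - e)` times a form of degree `e`, modulo the
ideal of `Y ∩ P(J)`. So one can lower the degree of a form which vanishes at all points of the orbits of
`y` and `y'` but one (or which vanishes doubly at all points of the orbit of `y` but one), and take the
component of weight `χ` (`CIQ.fin_points`, `CIQ.fin_tangents`).

(B) Let `Y ∩ P(J)` be infinite, and let `J' ⊂ J` be a minimal set such that `Y ∩ P(J')` is infinite. Let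
`h_i` be the `|J'| - 2` forms on `P(J')` in the condition (if `|J'| ≥ c + 2` one takes the `f_j`, and forms
`0` of degree 1), and `σ = ∑ (b_i - 1) ≤ ρ`. The ring `A = ℂ[x_J']/(h_i)` is Cohen-Macaulay of
dimension 2, the coordinates `x_i`, `i ∈ J'`, are not zero divisors in `A`, and on `A/(x_i)` the
multiplication by a suitable form of any weight and of any degree `> ρ` is injective, since the set of
the zeros of the `h_i` on `x_i = 0` is finite. Let `a(s, φ)` be the dimension of the part of `A` of degree
`s` and weight `φ`, and `δ = ∏ b_i`. The difference `a(s + 1, φ + w_i) - a(s, φ)` is at most `δ / |M|`,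
with equality for `s ≥ σ`, and `a(s, φ) = δ (s + 1 - σ/2) / |M|` for `s ≥ σ`. So `a(s, φ) > 0` if
`s + 1 > σ/2` (`CIQ.key2`): all weights occur on monomials in the coordinates in `J` of all degrees
`≥ (ρ - 1)/2`. So all relations between monomials of the same degree and weight follow from those of
degree `≤ ρ/2 + 1`, and these can be multiplied by monomials to degree `e` and weight `χ`
(`CIQ.path`). If `y' = t y` is not separated from `y` then `t^m` is constant on the monomials in `J` of
degree `e` and weight `χ`, and so on the monomials of any given degree and weight. As there are forms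
of degree `|G/S|` which vanish on the orbit of `y`, and not at `y'` if `y'` is not in the orbit, `y'` is in
the orbit. For tangent vectors one has an additive function instead of `t^m`.
-/

set_option autoImplicit false

namespace Pool.Agent.Results.MP_e09b14_ag.DiagonalFiniteSections

open MvPolynomial

/-- A complete intersection of dimension `n` in `P^(n+c)` with equations `f j` of degrees `d j`, and a
linear action `ρ` of `G` by diagonal matrices which preserves the ideal of the `f j`; an element which
fixes a point of the complete intersection acts by a scalar. -/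
structure DiagonalCover (G : Type) [Group G] (n c : ℕ) (d : Fin c → ℕ) where
  f : Fin c → MvPolynomial (Fin (n + c + 1)) ℂ
  hom : ∀ j, (f j).IsHomogeneous (d j)
  ρ : Representation ℂ G (Fin (n + c + 1) → ℂ)
  diagonal : ∀ (g : G) (i : Fin (n + c + 1)), ∃ a : ℂ, ρ g (Pi.single i 1) = a • Pi.single i 1
  stable : ∀ (g : G) (j : Fin c),
    bind₁ (fun i => ∑ l, C (ρ g (Pi.single l 1) i) * X l) (f j) ∈ Ideal.span (Set.range f)
  free : ∀ v : Fin (n + c + 1) → ℂ, v ≠ 0 → (∀ j, eval v (f j) = 0) → ∀ (g : G) (μ : ℂ),
    ρ g v = μ • v → ∃ b : ℂ, ∀ x, ρ g x = b • x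

variable {G : Type} [Group G] {n c : ℕ} {d : Fin c → ℕ}

/-- `y` are coordinates of a point of the complete intersection. -/
def IsPoint (D : DiagonalCover G n c d) (y : Fin (n + c + 1) → ℂ) : Prop :=
  y ≠ 0 ∧ ∀ j, eval y (D.f j) = 0

/-- The complete intersection has finitely many points on the coordinate subspace `P(J)`. -/
def FiniteSection (D : DiagonalCover G n c d) (J : Finset (Fin (n + c + 1))) : Prop :=
  {L : Submodule ℂ (Fin (n + c + 1) → ℂ) |
    ∃ y, IsPoint D y ∧ (∀ i, i ∉ J → y i = 0) ∧ L = Submodule.span ℂ {y}}.Finite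

/-- There are `|J| - 2` forms `h i` of degrees `b i ≥ 1` with `∑ (b i - 1) ≤ ∑ (d j - 1)`, whose ideal
on the coordinate subspace `P(J)` is stable under `G`, and whose common zeros on `P(J)` are points of
the complete intersection. -/
def CurveSection (D : DiagonalCover G n c d) (J : Finset (Fin (n + c + 1))) : Prop :=
  ∃ (s : ℕ) (b : Fin s → ℕ) (h : Fin s → MvPolynomial (Fin (n + c + 1)) ℂ), s + 2 = J.card ∧
    (∀ i, 1 ≤ b i ∧ (h i).IsHomogeneous (b i)) ∧ ∑ i, (b i - 1) ≤ ∑ j, (d j - 1) ∧
    (∀ (g : G) i, bind₁ (fun i => ∑ l, C (D.ρ g (Pi.single l 1) i) * X l) (h i) ∈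
      Ideal.span (Set.range h) ⊔ Ideal.span (X '' {i | i ∉ J})) ∧
    ∀ y, y ≠ 0 → (∀ i, eval y (h i) = 0) → (∀ i, i ∉ J → y i = 0) → IsPoint D y

/-- `χ` gives a line bundle on `X = Y/G` whose pullback to `Y` is `O(k)`. -/
def IsBundle (D : DiagonalCover G n c d) (k : ℕ) (χ : G →* ℂˣ) : Prop :=
  ∀ (g : G) (b : ℂ), (∀ x, D.ρ g x = b • x) → (χ g : ℂ) = b ^ k

/-- The forms of degree `e` on which `G` acts by the character `χ`: the sections of the line bundle
on `X = Y/G` given by `e` and `χ`. -/
def Section (D : DiagonalCover G n c d) (e : ℕ) (χ : G →* ℂˣ)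
    (F : MvPolynomial (Fin (n + c + 1)) ℂ) : Prop :=
  F.IsHomogeneous e ∧ ∀ (g : G) (x : Fin (n + c + 1) → ℂ), eval (D.ρ g x) F = χ g * eval x F

/-- The sections have no common zero on `Y`, and they separate the points of `X = Y/G` and the
tangent vectors. -/
def VeryAmple (D : DiagonalCover G n c d) (e : ℕ) (χ : G →* ℂˣ) : Prop :=
  (∀ y, IsPoint D y → ∃ F, Section D e χ F ∧ eval y F ≠ 0) ∧
  (∀ y z, IsPoint D y → IsPoint D z → (¬ ∃ (g : G) (b : ℂ), z = b • D.ρ g y) →
    ∃ F, Section D e χ F ∧ eval y F = 0 ∧ eval z F ≠ 0) ∧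
  (∀ y u, IsPoint D y → (∀ j, ∑ i, eval y (pderiv i (D.f j)) * u i = 0) →
    (¬ ∃ b : ℂ, u = b • y) →
    ∃ F, Section D e χ F ∧ eval y F = 0 ∧ ∑ i, eval y (pderiv i F) * u i ≠ 0)

/-- **Fujita's very ampleness conjecture for étale quotients of complete intersections by diagonal
groups with finite sections by coordinate subspaces of dimension at most `c`.** -/
theorem result [Finite G] (hd : ∀ j, 1 ≤ d j) (D : DiagonalCover G n c d)
    -- the condition on the minimal coordinate subspaces of dimension at most `c` which meet the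
    -- complete intersection in infinitely many points (if there are any)
    (hcase : ∀ J : Finset (Fin (n + c + 1)), 4 ≤ J.card → J.card ≤ c + 1 →
      ¬ FiniteSection D J → (∀ a ∈ J, FiniteSection D (J.erase a)) → CurveSection D J)
    -- the line bundles `A_1, …, A_m`
    (m : ℕ) (hm : n + 2 ≤ m) (k : Fin m → ℕ) (θ : Fin m → G →* ℂˣ)
    (hA : ∀ i, 1 ≤ k i ∧ IsBundle D (k i) (θ i))
    -- the line bundle `K_X + A_1 + … + A_m`
    (e : ℕ) (he : e + (n + c + 1) = ∑ j, d j + ∑ i, k i) (χ : G →* ℂˣ) (hχ : IsBundle D e χ) :
    VeryAmple D e χ := by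
  classical
  have hk : n + 2 ≤ ∑ i, k i := by
    calc n + 2 ≤ m := hm
      _ = ∑ _i : Fin m, 1 := by simp
      _ ≤ _ := Finset.sum_le_sum fun i _ => (hA i).1
  have hsum : ∑ j, (d j - 1) + c = ∑ j, d j := by
    calc ∑ j, (d j - 1) + c = ∑ j, (d j - 1) + ∑ _j : Fin c, 1 := by simp
      _ = ∑ j, (d j - 1 + 1) := by rw [Finset.sum_add_distrib]
      _ = _ := Finset.sum_congr rfl fun j _ => Nat.sub_add_cancel (hd j)
  have he' : ∑ j, (d j - 1) + 1 ≤ e := by omega
  set I : Ideal (MvPolynomial (Fin (n + c + 1)) ℂ) := Ideal.span (Set.range D.f) with hI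
  have hzero : ∀ v : Fin (n + c + 1) → ℂ, (∀ j, eval v (D.f j) = 0) ↔ ∀ p ∈ I, eval v p = 0 :=
    Pool.Agent.N212.FQ.zero_iff hI
  have hst : ∀ g, ∀ p ∈ I, Pool.Agent.N212.FQ.subst (D.ρ g) p ∈ I := by
    intro g
    have h1 : I ≤ I.comap (bind₁ (fun i =>
        Pool.Agent.N212.FQ.lin (LinearMap.proj i ∘ₗ D.ρ g))).toRingHom := by
      conv_lhs => rw [hI]
      rw [Ideal.span_le]
      rintro _ ⟨j, rfl⟩
      exact D.stable g j
    exact fun p hp => h1 hp
  have hfree : ∀ v : Fin (n + c + 1) → ℂ, v ≠ 0 → (∀ p ∈ I, eval v p = 0) → ∀ (g : G) (μ : ℂ),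
      D.ρ g v = μ • v → g ∈ Pool.Agent.N212.FQ.scalars D.ρ :=
    fun v hv0 hv g μ h => D.free v hv0 ((hzero v).2 hv) g μ h
  obtain ⟨h1, h2, h3⟩ := Pool.Agent.J6H82.CIQ.very_ample2 D.hom (fun j => hd j) hI hst hfree
    D.diagonal 0 he' (by
      have hfin : ∀ J, FiniteSection D J ↔ (Pool.Agent.J6H82.CIQ.Ln I J).Finite := by
        intro J
        have h5 : {L : Submodule ℂ (Fin (n + c + 1) → ℂ) |
            ∃ y, IsPoint D y ∧ (∀ i, i ∉ J → y i = 0) ∧ L = Submodule.span ℂ {y}} =
            Pool.Agent.J6H82.CIQ.Ln I J := by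
          ext L
          constructor
          · rintro ⟨y, hy, hyJ, hL⟩
            exact ⟨y, hy.1, (hzero y).1 hy.2, hyJ, hL⟩
          · rintro ⟨y, hy0, hy, hyJ, hL⟩
            exact ⟨y, ⟨hy0, (hzero y).2 hy⟩, hyJ, hL⟩
        unfold FiniteSection
        rw [h5]
      intro J hJ hJc hJ1 hJ2
      obtain ⟨s, b, h, hs, hb, hsum, hst, hz⟩ := hcase J hJ hJc (fun h => hJ1 ((hfin J).1 h))
        fun a ha => (hfin _).2 (hJ2 a ha)
      refine ⟨s, b, h, hs, hb, hsum, hst, fun v hv hvJ => ?_⟩
      by_cases hv0 : v = 0
      · refine (hzero v).1 fun j => ?_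
        have h6 := Pool.Agent.TH144.MB.eval_smul' (D.hom j) 0 v
        have h7 : (fun i => (0 : ℂ) * v i) = v := by
          rw [hv0]
          funext i
          simp
        rw [h7, zero_pow (by have := hd j; omega), zero_mul] at h6
        exact h6
      · exact (hzero v).1 (hz v hv0 hv hvJ).2) χ hχ
  refine ⟨fun y hy => h1 y hy.1 ((hzero y).1 hy.2),
    fun y z hy hz hyz => h2 y z hy.1 hz.1 ((hzero y).1 hy.2) ((hzero z).1 hz.2) hyz,
    fun y u hy hu hne => h3 y u hy.1 ((hzero y).1 hy.2) (fun p hp => ?_) hne⟩
  -- the tangent space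
  have h4 : I ≤ { carrier := {p | eval y p = 0 ∧ ∑ i, eval y (pderiv i p) * u i = 0}
                  add_mem' := by
                    rintro p q ⟨h5, h6⟩ ⟨h7, h8⟩
                    refine ⟨by rw [map_add, h5, h7, add_zero], ?_⟩
                    simp only [map_add, add_mul, Finset.sum_add_distrib, h6, h8, add_zero]
                  zero_mem' := by simp
                  smul_mem' := by
                    rintro a p ⟨h5, h6⟩
                    refine ⟨by rw [smul_eq_mul, map_mul, h5, mul_zero], ?_⟩
                    have h7 := Pool.Agent.J6H82.CIQ.dv_mul a p y u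
                    unfold Pool.Agent.TH144.MB.dv at h7
                    rw [smul_eq_mul, h7, h5, h6, mul_zero, zero_mul, add_zero] :
                  Ideal (MvPolynomial (Fin (n + c + 1)) ℂ) } := by
    conv_lhs => rw [hI]
    rw [Ideal.span_le]
    rintro _ ⟨j, rfl⟩
    exact ⟨hy.2 j, hu j⟩
  exact (h4 hp).2

end Pool.Agent.Results.MP_e09b14_ag.DiagonalFiniteSections
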