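import Pool.Agent.J6H82.CIQ.Transfer

/-!
# Fujita's very ampleness conjecture for étale quotients of complete intersections by diagonal groups

`Y ⊂ P^(n+c)` is a complete intersection of `c` hypersurfaces of degrees `d j`, of dimension `n`, and
a finite group `G` acts on `ℂ^(n+c+1)` by diagonal matrices, preserving the ideal of the equations;
the group `G/S`, `S` the subgroup of the elements acting by scalars, acts freely on `Y`. The line
bundles on `X = Y/G` whose pullback to `Y` is `O(k)` are given by the characters of `G` which are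
`c ^ k` on the elements acting by the scalar `c`. Let `A_1, …, A_m` be such line bundles, with pullbacks
`O(k_1), …, O(k_m)`, all `k_i ≥ 1` (ample line bundles). The sections of `K_X + A_1 + … + A_m` are the
forms of degree `e = ∑ d j - (n + c + 1) + ∑ k_i` on the cone over `Y` on which `G` acts by a certain
character `χ`, which is `c ^ e` on the elements acting by the scalar `c`.

Theorem. Let `m ≥ n + 2`. If `Y` has a point with `s` nonzero coordinates, `3 ≤ s ≤ c`, then let
`∑ k_i ≥ n + 2 + ∑ (D - d j)` or `∑ k_i ≥ n + 1 + D`, where `D` is the largest of the degrees. Then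
`K_X + A_1 + … + A_m` is very ample: there are no base points, points and tangent vectors are separated.

There is no condition on the order of `G`. The second condition is empty if `c ≤ 2` (étale quotients of
complete intersections of codimension at most two by diagonal groups), or if all degrees are equal
(for example for intersections of quadrics), or if `G/S` contains `(ℤ/p)^c` for a prime `p`
(`CIQ.supp_of_torsion`: then all points of `Y` have more than `c` nonzero coordinates).

The proof. Let `M` be the group of characters of `G/S` (the weights). For a set `J` of coordinates let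
`N_J(s)` be the set of the weights of the monomials of degree `s` in the coordinates in `J`. Let
`ρ = ∑ (d j - 1)`, so that `e ≥ ρ + 1`. If `y` and `y'` are points of `Y` which are not separated then
they have the same nonzero coordinates, `y' = t y` with `t` in the torus, and `t^m`, a function on
the monomials in the set `J` of these coordinates, has only one value on the monomials of degree `e`
and weight `χ`. Assume that we know the same for all degrees `s` and all weights. Then, as there are
forms of degree `|G/S|` which vanish on the orbit of `y`, and not at `y'` if `y'` is not in the orbit,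
`y'` is in the orbit. For tangent vectors one has an additive function instead of `t^m`.

(A) If `Y` has no point whose nonzero coordinates form a proper subset of `J` then for all `s ≥ ρ`
all monomials in `J` of degree `s + 1` and weight `φ + w_i` are `x_i` times a form of degree `s` and
weight `φ` modulo the ideal of `Y` and the coordinates outside of `J` (Macaulay's bound), for a fixed
`i` in `J`, and one can pass from the degree `e` to all large degrees, and then to all degrees.

(B) If all points of `Y` with nonzero coordinates only in `J` have more than `c` nonzero coordinates,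
and `|J| ≥ c + 2`, then `N_J(s) = M` for all `s ≥ (ρ - 1)/2` (`CIQ.key`). To see this let `|J| = c + 2`.
The ring `A = ℂ[x_J]/(f_j)` is Cohen-Macaulay of dimension 2 and any two coordinates are a regular
sequence. Let `a(s, φ)` be the dimension of the part of degree `s` and weight `φ`, and `δ = ∏ d j`. For
`i` in `J` the difference `a(s + 1, φ + w_i) - a(s, φ)` is at most `δ / |M|`, with equality for `s ≥ ρ`;
and `a(s, φ) = δ (s + 1 - ρ/2) / |M|` for large `s`. So `a(s, φ) > 0` if `s + 1 > ρ/2`. Now all relations
between monomials of the same degree and weight follow from those of degree `≤ ρ/2 + 1`, and these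
can be multiplied by monomials to degree `e` and weight `χ`.

(C) If there is a point with at most `c` nonzero coordinates, all in `J`, let `w` be one with a minimal
set `J'` of nonzero coordinates. If `N_{J'}(e - d j) = M` for all `j` then `f_j(t w) = 0`, since for
a weight component `f` of `f_j` and a suitable monomial `x^m` in `J'` the form `x^m f` has degree `e` and
weight `χ`. So one can apply (A) to `w` and `t w`, and pass from `J'` to `J`, since all weights occur in
degree `e - 1` in `J'`. By Macaulay's bound `N_{J'}(s) = M` for `s ≥ (|J'| - 1) (D - 1)` and for `s ≥ ρ`.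

If a point has at most two nonzero coordinates then `|G/S| ≤ ρ + 1 ≤ e`, and the starting library
(`TH144.MB`) has the separation of points and tangent vectors.
-/

set_option autoImplicit false

namespace Pool.Agent.Results.MP_e09b14_ag.DiagonalQuotients

open MvPolynomial

/-- A complete intersection of dimension `n` in `P^(n+c)` with equations `f j` of degrees `d j`, and a
linear action `ρ` of `G` by diagonal matrices which preserves the ideal of the `f j`; an element which
fixes a point of the complete intersection acts by a scalar. -/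
structure DiagonalCover (G : Type) [Group G] (n c : ℕ) (d : Fin c → ℕ) where
  f : Fin c → MvPolynomial (Fin (n + c + 1)) ℂ
  hom : ∀ j, (f j).IsHomogeneous (d j)
  ρ : Representation ℂ G (Fin (n + c + 1) → ℂ)
  diagonal : ∀ (g : G) (i : Fin (n + c + 1)), ∃ a : ℂ, ρ g (Pi.single i 1) = a • Pi.single i 1
  stable : ∀ (g : G) (j : Fin c),
    bind₁ (fun i => ∑ l, C (ρ g (Pi.single l 1) i) * X l) (f j) ∈ Ideal.span (Set.range f)
  free : ∀ v : Fin (n + c + 1) → ℂ, v ≠ 0 → (∀ j, eval v (f j) = 0) → ∀ (g : G) (μ : ℂ),
    ρ g v = μ • v → ∃ b : ℂ, ∀ x, ρ g x = b • x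

variable {G : Type} [Group G] {n c : ℕ} {d : Fin c → ℕ}

/-- `y` are coordinates of a point of the complete intersection. -/
def IsPoint (D : DiagonalCover G n c d) (y : Fin (n + c + 1) → ℂ) : Prop :=
  y ≠ 0 ∧ ∀ j, eval y (D.f j) = 0

/-- `χ` gives a line bundle on `X = Y/G` whose pullback to `Y` is `O(k)`. -/
def IsBundle (D : DiagonalCover G n c d) (k : ℕ) (χ : G →* ℂˣ) : Prop :=
  ∀ (g : G) (b : ℂ), (∀ x, D.ρ g x = b • x) → (χ g : ℂ) = b ^ k

/-- The forms of degree `e` on which `G` acts by the character `χ`: the sections of the line bundle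
on `X = Y/G` given by `e` and `χ`. -/
def Section (D : DiagonalCover G n c d) (e : ℕ) (χ : G →* ℂˣ)
    (F : MvPolynomial (Fin (n + c + 1)) ℂ) : Prop :=
  F.IsHomogeneous e ∧ ∀ (g : G) (x : Fin (n + c + 1) → ℂ), eval (D.ρ g x) F = χ g * eval x F

/-- The sections have no common zero on `Y`, and they separate the points of `X = Y/G` and the
tangent vectors. -/
def VeryAmple (D : DiagonalCover G n c d) (e : ℕ) (χ : G →* ℂˣ) : Prop :=
  (∀ y, IsPoint D y → ∃ F, Section D e χ F ∧ eval y F ≠ 0) ∧
  (∀ y z, IsPoint D y → IsPoint D z → (¬ ∃ (g : G) (b : ℂ), z = b • D.ρ g y) →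
    ∃ F, Section D e χ F ∧ eval y F = 0 ∧ eval z F ≠ 0) ∧
  (∀ y u, IsPoint D y → (∀ j, ∑ i, eval y (pderiv i (D.f j)) * u i = 0) →
    (¬ ∃ b : ℂ, u = b • y) →
    ∃ F, Section D e χ F ∧ eval y F = 0 ∧ ∑ i, eval y (pderiv i F) * u i ≠ 0)

/-- **Fujita's very ampleness conjecture for étale quotients of complete intersections by diagonal
groups.** -/
theorem result [Finite G] (hd : ∀ j, 1 ≤ d j) (D : DiagonalCover G n c d)
    -- the line bundles `A_1, …, A_m`
    (m : ℕ) (hm : n + 2 ≤ m) (k : Fin m → ℕ) (θ : Fin m → G →* ℂˣ)
    (hA : ∀ i, 1 ≤ k i ∧ IsBundle D (k i) (θ i))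
    -- the line bundle `K_X + A_1 + … + A_m`
    (e : ℕ) (he : e + (n + c + 1) = ∑ j, d j + ∑ i, k i) (χ : G →* ℂˣ) (hχ : IsBundle D e χ)
    -- an upper bound for the degrees
    (b : ℕ) (hb : ∀ j, d j ≤ b)
    -- the condition if there is a point with `s` nonzero coordinates, `3 ≤ s ≤ c`
    (hcase : ∀ y, IsPoint D y → 3 ≤ {i | y i ≠ 0}.ncard → {i | y i ≠ 0}.ncard ≤ c →
      n + 2 + ∑ j, (b - d j) ≤ ∑ i, k i ∨ n + 1 + b ≤ ∑ i, k i) :
    VeryAmple D e χ := by
  classical
  have hk : n + 2 ≤ ∑ i, k i := by
    calc n + 2 ≤ m := hm
      _ = ∑ _i : Fin m, 1 := by simp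
      _ ≤ _ := Finset.sum_le_sum fun i _ => (hA i).1
  have hsum : ∑ j, (d j - 1) + c = ∑ j, d j := by
    calc ∑ j, (d j - 1) + c = ∑ j, (d j - 1) + ∑ _j : Fin c, 1 := by simp
      _ = ∑ j, (d j - 1 + 1) := by rw [Finset.sum_add_distrib]
      _ = _ := Finset.sum_congr rfl fun j _ => Nat.sub_add_cancel (hd j)
  have he' : ∑ j, (d j - 1) + 1 ≤ e := by omega
  set I : Ideal (MvPolynomial (Fin (n + c + 1)) ℂ) := Ideal.span (Set.range D.f) with hI
  have hzero : ∀ v : Fin (n + c + 1) → ℂ, (∀ j, eval v (D.f j) = 0) ↔ ∀ p ∈ I, eval v p = 0 :=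
    Pool.Agent.N212.FQ.zero_iff hI
  have hst : ∀ g, ∀ p ∈ I, Pool.Agent.N212.FQ.subst (D.ρ g) p ∈ I := by
    intro g
    have h1 : I ≤ I.comap (bind₁ (fun i =>
        Pool.Agent.N212.FQ.lin (LinearMap.proj i ∘ₗ D.ρ g))).toRingHom := by
      conv_lhs => rw [hI]
      rw [Ideal.span_le]
      rintro _ ⟨j, rfl⟩
      exact D.stable g j
    exact fun p hp => h1 hp
  have hfree : ∀ v : Fin (n + c + 1) → ℂ, v ≠ 0 → (∀ p ∈ I, eval v p = 0) → ∀ (g : G) (μ : ℂ),
      D.ρ g v = μ • v → g ∈ Pool.Agent.N212.FQ.scalars D.ρ :=
    fun v hv0 hv g μ h => D.free v hv0 ((hzero v).2 hv) g μ h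
  have hbound : ∀ b, (∀ j, d j ≤ b) → c * (b - 1) = ∑ j, (d j - 1) + ∑ j, (b - d j) := by
    intro b hb
    rw [← Finset.sum_add_distrib]
    calc c * (b - 1) = ∑ _j : Fin c, (b - 1) := by simp
      _ = _ := Finset.sum_congr rfl fun j _ => by
        have := hb j
        have := hd j
        omega
  obtain ⟨h1, h2, h3⟩ := Pool.Agent.J6H82.CIQ.very_ample D.hom (fun j => hd j) hI hst hfree
    D.diagonal 0 he' (by
      right
      by_cases hex : ∃ y, IsPoint D y ∧ 3 ≤ {i | y i ≠ 0}.ncard ∧ {i | y i ≠ 0}.ncard ≤ c
      · obtain ⟨y, hy, h3, hc⟩ := hex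
        right
        refine ⟨b, hb, ?_⟩
        rcases hcase y hy h3 hc with h | h
        · left
          rw [hbound b hb]
          omega
        · right
          omega
      · left
        intro v hv0 hv
        by_contra hcon
        push Not at hcon
        exact hex ⟨v, ⟨hv0, (hzero v).2 hv⟩, by omega, hcon.2⟩) χ hχ
  refine ⟨fun y hy => h1 y hy.1 ((hzero y).1 hy.2),
    fun y z hy hz hyz => h2 y z hy.1 hz.1 ((hzero y).1 hy.2) ((hzero z).1 hz.2) hyz,
    fun y u hy hu hne => h3 y u hy.1 ((hzero y).1 hy.2) (fun p hp => ?_) hne⟩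
  -- the tangent space
  have h4 : I ≤ { carrier := {p | eval y p = 0 ∧ ∑ i, eval y (pderiv i p) * u i = 0}
                  add_mem' := by
                    rintro p q ⟨h5, h6⟩ ⟨h7, h8⟩
                    refine ⟨by rw [map_add, h5, h7, add_zero], ?_⟩
                    simp only [map_add, add_mul, Finset.sum_add_distrib, h6, h8, add_zero]
                  zero_mem' := by simp
                  smul_mem' := by
                    rintro a p ⟨h5, h6⟩
                    refine ⟨by rw [smul_eq_mul, map_mul, h5, mul_zero], ?_⟩
                    have h7 := Pool.Agent.J6H82.CIQ.dv_mul a p y u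
                    unfold Pool.Agent.TH144.MB.dv at h7
                    rw [smul_eq_mul, h7, h5, h6, mul_zero, zero_mul, add_zero] :
                  Ideal (MvPolynomial (Fin (n + c + 1)) ℂ) } := by
    conv_lhs => rw [hI]
    rw [Ideal.span_le]
    rintro _ ⟨j, rfl⟩
    exact ⟨hy.2 j, hu j⟩
  exact (h4 hp).2

end Pool.Agent.Results.MP_e09b14_ag.DiagonalQuotients
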