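import Pool.Agent.J6H82.Fuj.VeryAmple

/-!
# Fujita's very ampleness conjecture for étale quotients of hypersurfaces

`Y ⊂ P^(n+1)` is a hypersurface of degree `d` and dimension `n ≥ 1`, with equation `f`, and a finite
group `G` acts linearly on `ℂ^(n+2)`, preserving the ideal `(f)`; the group `G/S`, `S` the subgroup
of the elements acting by scalars, acts freely on `Y`. Every finite group of projective
transformations of `P^(n+1)` is such a `G/S`. The line bundles on `X = Y/G` whose pullback to `Y` is
`O(k)` are given by the characters of `G` which are `c ^ k` on the elements acting by the scalar `c`.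
Let `A_1, …, A_m` be such line bundles, with pullbacks `O(k_1), …, O(k_m)`, all `k_i ≥ 1` (ample line
bundles). The sections of `K_X + A_1 + … + A_m` are the forms of degree `e = d - n - 2 + ∑ k_i` on
the cone over `Y` on which `G` acts by a certain character `χ`, which is `c ^ e` on the elements
acting by the scalar `c`. If `Y` is smooth and `n ≥ 3` then all its automorphisms are projective
transformations and all line bundles on `X` are of this kind; so the theorem is about all smooth
projective varieties whose universal cover is a hypersurface of dimension `n ≥ 3`.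

Theorem. Let `m ≥ n + 2`. Then `K_X + A_1 + … + A_m` is very ample (there are no base points, points
and tangent vectors are separated), except possibly if `G/S` has `(n + 2) d` elements,
`(n + 2) ^ 2 ≤ d` and `e ≤ 2 d + 2`. (The order of `G/S` always divides `(n + 2) d`, and it divides
`d` if `n + 2` is not a prime, or does not divide `d` and all `k_i`.)

The proof. Let `M = n + 2` and let `r` be the order of `G/S`. As every line meets `Y`, the elements of
`G` outside of `S` have simple spectrum; so all prime factors of `r` are at least `M`. If the elements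
of `G` commute up to scalars only if they commute then `r ≤ d`, and products of linear forms separate
two orbits and tangent vectors (starting library, `N212.FQ`). Otherwise `M = p` is an odd prime,
there are `x, y` in `G` with `x y = ω y x`, `ω` of order `p`, and `r` divides `p d`, `p ∣ k_i`, so
that `e ≥ d + p (p - 1)`. Let `R_b` be the space of the functions on an orbit given by the forms of
degree `b`, and let `h_b` be its dimension. The commutator of `x` and `y` acts on `R_b` by `ω ^ b`, so
that `p ∣ h_b` if `p ∤ b`. By the analogue of Kneser's theorem for products of spaces of functions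
(`Fuj.kneser`) `h_(b+1) ≥ h_b + h_1 - s`, where `s` is the dimension of the algebra of the functions
`f` with `f R_(b+1) ⊆ R_(b+1)`. If this algebra is `ℂ` for `b < a`, then `h_b ≥ p b - 1` for all
`b ≤ a`, in contradiction to `h_a ≤ r` if `r ≤ p (a - 1)`. Otherwise it contains the characteristic
functions of the cosets of a proper subgroup `K` of `G/S`, and as `|K| ≤ r / p < a`, the points of the
orbit are separated by the forms of degree `a`. If `r < p d` then `r ≤ p d / 2`, and we can take `a`
near to `d / 2`; a product of a form of degree `a + 1` which vanishes at an orbit and not at `z`, and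
of a form of degree `e - a - 1` which vanishes at the orbit of `z` except at `z`, separates two
orbits, and similarly for tangent vectors.
-/

set_option autoImplicit false

namespace Pool.Agent.Results.MP_e09b14_ag.HypersurfaceQuotients

open MvPolynomial

/-- A hypersurface with the equation `f` of degree `d` and dimension `n`, and a linear action `ρ` of
`G` on `ℂ^(n+2)` which preserves the ideal `(f)`; an element which fixes a point of the hypersurface
acts by a scalar. -/
structure HypersurfaceCover (G : Type) [Group G] (n d : ℕ) where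
  f : MvPolynomial (Fin (n + 2)) ℂ
  hom : f.IsHomogeneous d
  ρ : Representation ℂ G (Fin (n + 2) → ℂ)
  stable : ∀ g : G, bind₁ (fun i => ∑ j, C (ρ g (Pi.single j 1) i) * X j) f ∈ Ideal.span {f}
  free : ∀ v : Fin (n + 2) → ℂ, v ≠ 0 → eval v f = 0 → ∀ (g : G) (μ : ℂ), ρ g v = μ • v →
    ∃ c : ℂ, ∀ x, ρ g x = c • x

variable {G : Type} [Group G] {n d : ℕ}

/-- The order of `G` modulo the elements which act by scalars. -/
noncomputable def order (D : HypersurfaceCover G n d) : ℕ :=
  Nat.card G / Nat.card {g : G // ∃ c : ℂ, ∀ x, D.ρ g x = c • x}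

/-- `χ` gives a line bundle on `X = Y/G` whose pullback to `Y` is `O(k)`. -/
def IsBundle (D : HypersurfaceCover G n d) (k : ℕ) (χ : G →* ℂˣ) : Prop :=
  ∀ (g : G) (c : ℂ), (∀ x, D.ρ g x = c • x) → (χ g : ℂ) = c ^ k

/-- The forms of degree `e` on which `G` acts by the character `χ`: the sections of the line bundle
on `X = Y/G` given by `e` and `χ`. -/
def Section (D : HypersurfaceCover G n d) (e : ℕ) (χ : G →* ℂˣ)
    (F : MvPolynomial (Fin (n + 2)) ℂ) : Prop :=
  F.IsHomogeneous e ∧ ∀ (g : G) (x : Fin (n + 2) → ℂ), eval (D.ρ g x) F = χ g * eval x F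

/-- The sections have no common zero on `Y`, and they separate the points of `X = Y/G` and the
tangent vectors. -/
def VeryAmple (D : HypersurfaceCover G n d) (e : ℕ) (χ : G →* ℂˣ) : Prop :=
  (∀ y : Fin (n + 2) → ℂ, y ≠ 0 → eval y D.f = 0 → ∃ F, Section D e χ F ∧ eval y F ≠ 0) ∧
  (∀ y z : Fin (n + 2) → ℂ, y ≠ 0 → z ≠ 0 → eval y D.f = 0 → eval z D.f = 0 →
    (¬ ∃ (g : G) (c : ℂ), z = c • D.ρ g y) →
    ∃ F, Section D e χ F ∧ eval y F = 0 ∧ eval z F ≠ 0) ∧
  (∀ y u : Fin (n + 2) → ℂ, y ≠ 0 → eval y D.f = 0 → ∑ i, eval y (pderiv i D.f) * u i = 0 →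
    (¬ ∃ c : ℂ, u = c • y) →
    ∃ F, Section D e χ F ∧ eval y F = 0 ∧ ∑ i, eval y (pderiv i F) * u i ≠ 0)

/-- **Fujita's very ampleness conjecture for étale quotients of hypersurfaces.** -/
theorem result [Finite G] (hn : 1 ≤ n) (hd : 1 ≤ d) (D : HypersurfaceCover G n d)
    -- the line bundles `A_1, …, A_m`
    (m : ℕ) (hm : n + 2 ≤ m) (k : Fin m → ℕ) (θ : Fin m → G →* ℂˣ)
    (hA : ∀ i, 1 ≤ k i ∧ IsBundle D (k i) (θ i))
    -- the line bundle `K_X + A_1 + … + A_m`
    (e : ℕ) (he : e + (n + 2) = d + ∑ i, k i) (χ : G →* ℂˣ) (hχ : IsBundle D e χ)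
    (hexc : ¬ (order D = (n + 2) * d ∧ (n + 2) ^ 2 ≤ d ∧ e ≤ 2 * d + 2)) :
    VeryAmple D e χ := by
  classical
  have hsum : ∀ b : ℕ, (∀ i, b ≤ k i) → (n + 2) * b ≤ ∑ i, k i := by
    intro b hb
    calc (n + 2) * b ≤ m * b := Nat.mul_le_mul_right _ hm
      _ = ∑ _i : Fin m, b := by simp
      _ ≤ _ := Finset.sum_le_sum fun i _ => hb i
  have horder : order D = (Pool.Agent.N212.FQ.scalars D.ρ).index := by
    have h1 := Subgroup.index_mul_card (Pool.Agent.N212.FQ.scalars D.ρ)
    have h2 : Nat.card (Pool.Agent.N212.FQ.scalars D.ρ) =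
      Nat.card {g : G // ∃ c : ℂ, ∀ x, D.ρ g x = c • x} := rfl
    rw [order, ← h1, h2, Nat.mul_div_cancel _ (h2 ▸ Nat.card_pos)]
  have H : Pool.Agent.J6H88.FQ.Hyp D.ρ D.f d :=
    { pos := hd
      hom := D.hom
      stable := by
        intro g p hp
        obtain ⟨a, rfl⟩ := Ideal.mem_span_singleton'.1 hp
        show bind₁ _ (a * D.f) ∈ _
        rw [map_mul]
        exact Ideal.mul_mem_left _ _ (D.stable g)
      free := D.free }
  -- commutators
  have hcomm : ∀ (x z : G) (ω : ℂ), (∀ v, D.ρ x (D.ρ z v) = ω • D.ρ z (D.ρ x v)) →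
      (n + 2).Prime → ω ≠ 1 → ω ^ (n + 2) = 1 → ∀ i, n + 2 ≤ k i := by
    intro x z ω hxz hMp hω1 hωM i
    haveI : Fact (n + 2).Prime := ⟨hMp⟩
    have hord : orderOf ω = n + 2 := orderOf_eq_prime hωM hω1
    set s : G := x * z * (z * x)⁻¹ with hs
    have hsω : ∀ v, D.ρ s v = ω • v := by
      intro v
      have h2 : v = D.ρ (z * x) (D.ρ (z * x)⁻¹ v) := by
        rw [← Module.End.mul_apply, ← map_mul, mul_inv_cancel, map_one,
          Module.End.one_apply]
      have h3 : s * (z * x) = x * z := by rw [hs, inv_mul_cancel_right]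
      rw [h2, ← Module.End.mul_apply, ← map_mul, h3, map_mul, Module.End.mul_apply, hxz,
        map_mul D.ρ z x, Module.End.mul_apply]
    have h2 := (hA i).2 s ω hsω
    have h3 : θ i s = 1 := by
      rw [hs, map_mul, map_inv, map_mul, map_mul, mul_comm (θ i x), mul_inv_cancel]
    rw [h3, Units.val_one] at h2
    have h4 : n + 2 ∣ k i := by
      rw [← hord]
      exact orderOf_dvd_of_pow_eq_one h2.symm
    exact Nat.le_of_dvd (hA i).1 h4
  have h1 := hsum 1 (fun i => (hA i).1)
  obtain ⟨hP, hT⟩ := Pool.Agent.J6H82.Fuj.forms (e := e) (by omega) H (by omega) (by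
    intro x z ω hxz hMp hω1 hωM
    have h2 := hsum (n + 2) (hcomm x z ω hxz hMp hω1 hωM)
    have h3 : d + (n + 2) * (n + 1) ≤ e := by nlinarith
    by_cases h4 : (Pool.Agent.N212.FQ.scalars D.ρ).index = (n + 2) * d
    · rw [horder] at hexc
      by_cases h5 : (n + 2) ^ 2 ≤ d
      · refine Or.inr ⟨d, h4.le, ?_⟩
        by_contra h6
        exact hexc ⟨h4, h5, by omega⟩
      · by_cases h6 : n + 2 ∣ d
        · refine Or.inl ((H.le_sq (by omega) h6 (not_le.1 h5)).trans ?_)
          have h7 := Nat.le_of_dvd hd h6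
          have h8 : (n + 2) ^ 2 = (n + 2) * (n + 1) + (n + 2) := by ring
          omega
        · exact Or.inl ((Nat.le_of_dvd hd (H.dvd_degree (by omega)
            (Or.inr (Or.inl h6)))).trans (by omega))
    · refine Or.inr ⟨d / 2 + 1, ?_, ?_⟩
      · obtain ⟨j, hj⟩ := H.dvd_det (by omega)
        have hj2 : 2 ≤ j := by
          by_contra hj2
          have : j = 0 ∨ j = 1 := by omega
          rcases this with rfl | rfl
          · rw [mul_zero] at hj
            have := Nat.mul_pos (show 0 < n + 2 by omega) hd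
            omega
          · exact h4 (by rw [hj, mul_one])
        have h5 : (Pool.Agent.N212.FQ.scalars D.ρ).index * 2 ≤ (n + 2) * d := by
          rw [hj]
          exact Nat.mul_le_mul_left _ hj2
        have h6 : d ≤ 2 * (d / 2 + 1) := by omega
        have h7 : (n + 2) * d ≤ (n + 2) * (2 * (d / 2 + 1)) :=
          Nat.mul_le_mul_left _ h6
        have h8 : (n + 2) * (2 * (d / 2 + 1)) = (n + 2) * (d / 2 + 1) * 2 := by ring
        omega
      · nlinarith [Nat.div_mul_le_self d 2])
  refine ⟨fun y hy0 hy => ?_, fun y z hy0 hz0 hy hz hyz => ?_, fun y u hy0 hy hu hne => ?_⟩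
  · obtain ⟨F, hF1, hF2, hF3⟩ := Pool.Agent.J6H82.Fuj.separation (ρ := D.ρ) (d := d) (e := e)
      (f := D.f) (by omega) hd D.hom H.stable D.free (by omega)
      (by
        intro x z ω hxz hMp hω1 hωM
        have h1 := hsum (n + 2) (hcomm x z ω hxz hMp hω1 hωM)
        nlinarith)
      hy0 hy
    exact ⟨_, Pool.Agent.N212.FQ.sec_of_avg χ hF1,
      Pool.Agent.N212.FQ.avg_ne_zero D.ρ χ hF1 hχ hF2 hF3⟩
  · obtain ⟨F, hF1, hF2, hF3, hF4⟩ := hP y z hy0 hz0 hy hz (fun g t h => hyz ⟨g, t, h⟩)
    exact ⟨_, Pool.Agent.N212.FQ.sec_of_avg χ hF1,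
      Pool.Agent.N212.FQ.avg_eq_zero D.ρ χ F hF4,
      Pool.Agent.N212.FQ.avg_ne_zero D.ρ χ hF1 hχ hF2 hF3⟩
  · obtain ⟨F, hF1, hF2, hF3, hF4⟩ := hT y u hy0 hy hu (fun t h => hne ⟨t, h⟩)
    exact ⟨_, Pool.Agent.N212.FQ.sec_of_avg χ hF1,
      Pool.Agent.N212.FQ.avg_eq_zero D.ρ χ F hF3,
      Pool.Agent.N212.FQ.der_avg_ne_zero D.ρ χ hF1 hχ hF2 hF4⟩

end Pool.Agent.Results.MP_e09b14_ag.HypersurfaceQuotients
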